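import Mathlib

namespace Pool.Agent.Results.MP_74392e_co.ManyFinite

open SimpleGraph

universe u

/-- `G` is `(k,t)`-regular: every vertex has exactly `k` neighbours, and for every vertex `v`
the local graph (the subgraph of `G` induced on the neighbourhood of `v`) is `t`-regular. -/
def KTRegular {V : Type u} (G : SimpleGraph V) (k t : ℕ) : Prop :=
  ∀ v : V, (G.neighborSet v).encard = k ∧
    ∀ w : G.neighborSet v, ((G.induce (G.neighborSet v)).neighborSet w).encard = t

lemma local_encard {V : Type u} (G : SimpleGraph V) (v : V) (w : G.neighborSet v) :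
    ((G.induce (G.neighborSet v)).neighborSet w).encard =
      (G.neighborSet v ∩ G.neighborSet w.1).encard := by
  rw [← Subtype.val_injective.encard_image]
  congr 1
  ext x
  simp only [Set.mem_image, mem_neighborSet, comap_adj, Function.Embedding.subtype_apply,
    Subtype.exists, exists_and_left, exists_prop, exists_eq_right_right, Set.mem_inter_iff]
  constructor
  · rintro ⟨h1, h2⟩
    exact ⟨h2, h1⟩
  · rintro ⟨h1, h2⟩
    exact ⟨h2, h1⟩

lemma ktRegular_iff {V : Type u} (G : SimpleGraph V) (k t : ℕ) :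
    KTRegular G k t ↔ (∀ v : V, (G.neighborSet v).encard = k) ∧
      ∀ v w : V, G.Adj v w → (G.neighborSet v ∩ G.neighborSet w).encard = t := by
  constructor
  · intro h
    refine ⟨fun v => (h v).1, fun v w hvw => ?_⟩
    rw [← (h v).2 ⟨w, hvw⟩, local_encard]
  · rintro ⟨h1, h2⟩ v
    refine ⟨h1 v, fun w => ?_⟩
    rw [local_encard, h2 v w.1 w.2]

/-- The key step: no vertex is at distance three. -/
lemma no_dist_three {V : Type u} (G : SimpleGraph V) (k t : ℕ) (hG : KTRegular G k t)
    (hkt : 2 * k < 3 * t + 4) (v a x y : V) (hva : G.Adj v a) (hax : G.Adj a x)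
    (hxy : G.Adj x y) (hvx : ¬ G.Adj v x) (hne : v ≠ x) :
    G.Adj v y ∨ ∃ b, G.Adj v b ∧ G.Adj b y := by
  by_contra hcon
  push Not at hcon
  obtain ⟨hvy, hb⟩ := hcon
  rw [ktRegular_iff] at hG
  obtain ⟨hk, ht⟩ := hG
  have hfin : ∀ z, (G.neighborSet z).Finite := fun z =>
    Set.finite_of_encard_eq_coe (hk z)
  have hkn : ∀ z, (G.neighborSet z).ncard = k := fun z => by
    rw [Set.ncard, hk z]; rfl
  have htn : ∀ z w, G.Adj z w → (G.neighborSet z ∩ G.neighborSet w).ncard = t := fun z w h => by
    rw [Set.ncard, ht z w h]; rfl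
  -- inside the local graph at `a`
  set A := G.neighborSet a ∩ G.neighborSet v with hA
  set X := G.neighborSet a ∩ G.neighborSet x with hX
  have hAfin : A.Finite := (hfin a).inter_of_left _
  have hXfin : X.Finite := (hfin a).inter_of_left _
  have hAc : A.ncard = t := htn a v hva.symm
  have hXc : X.ncard = t := htn a x hax
  have hunion : (A ∪ X).ncard + 2 ≤ k := by
    have h1 : A ∪ X ∪ {v, x} ⊆ G.neighborSet a := by
      intro z hz
      simp only [hA, hX, Set.mem_union, Set.mem_inter_iff, mem_neighborSet, Set.mem_insert_iff,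
        Set.mem_singleton_iff] at hz
      rcases hz with (hz | hz) | (rfl | rfl)
      · exact hz.1
      · exact hz.1
      · exact hva.symm
      · exact hax
    have h2 : Disjoint (A ∪ X) {v, x} := by
      rw [Set.disjoint_left]
      intro z hz hz2
      simp only [hA, hX, Set.mem_union, Set.mem_inter_iff, mem_neighborSet, Set.mem_insert_iff,
        Set.mem_singleton_iff] at hz hz2
      rcases hz2 with rfl | rfl
      · rcases hz with hz | hz
        · exact G.loopless.irrefl _ hz.2
        · exact hvx hz.2.symm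
      · rcases hz with hz | hz
        · exact hvx hz.2
        · exact G.loopless.irrefl _ hz.2
    have h3 := Set.ncard_le_ncard h1 (hfin a)
    rw [Set.ncard_union_eq h2 (hAfin.union hXfin) (Set.toFinite _), Set.ncard_pair hne, hkn a] at h3
    exact h3
  have hinter := Set.ncard_union_add_ncard_inter A X hAfin hXfin
  -- the common neighbours of `v` and `x`
  set S := G.neighborSet v ∩ G.neighborSet x with hS
  have hSfin : S.Finite := (hfin v).inter_of_left _
  have hScard : (A ∩ X).ncard + 1 ≤ S.ncard := by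
    have h1 : insert a (A ∩ X) ⊆ S := by
      intro z hz
      simp only [hA, hX, Set.mem_insert_iff, Set.mem_inter_iff, mem_neighborSet] at hz
      rcases hz with rfl | hz
      · exact ⟨hva, hax.symm⟩
      · exact ⟨hz.1.2, hz.2.2⟩
    have h2 : a ∉ A ∩ X := by
      simp only [hA, hX, Set.mem_inter_iff, mem_neighborSet]
      intro h
      exact G.loopless.irrefl _ h.1.1
    have h3 := Set.ncard_le_ncard h1 hSfin
    rw [Set.ncard_insert_of_notMem h2 (hAfin.inter_of_left _)] at h3
    exact h3
  -- the neighbourhood of `x`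
  set Y := G.neighborSet x ∩ G.neighborSet y with hY
  have hYfin : Y.Finite := (hfin x).inter_of_left _
  have hYc : Y.ncard = t := htn x y hxy
  have hdisj : Disjoint S (insert y Y) := by
    rw [Set.disjoint_left]
    intro z hz hz2
    simp only [hS, hY, Set.mem_insert_iff, Set.mem_inter_iff, mem_neighborSet] at hz hz2
    rcases hz2 with rfl | hz2
    · exact hvy hz.1
    · exact hb z hz.1 hz2.2.symm
  have hsub : S ∪ insert y Y ⊆ G.neighborSet x := by
    intro z hz
    simp only [hS, hY, Set.mem_union, Set.mem_insert_iff, Set.mem_inter_iff, mem_neighborSet] at hz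
    rcases hz with hz | rfl | hz
    · exact hz.2
    · exact hxy
    · exact hz.1
  have hyY : y ∉ Y := by
    simp only [hY, Set.mem_inter_iff, mem_neighborSet]
    intro h
    exact G.loopless.irrefl _ h.2
  have hfinal := Set.ncard_le_ncard hsub (hfin x)
  rw [Set.ncard_union_eq hdisj hSfin (hYfin.insert _), Set.ncard_insert_of_notMem hyY hYfin,
    hkn x] at hfinal
  omega

/-- A connected `(k,t)`-regular graph with `2k < 3t+4` has diameter at most two. -/
lemma dist_le_two {V : Type u} (G : SimpleGraph V) (k t : ℕ) (hG : KTRegular G k t)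
    (hkt : 2 * k < 3 * t + 4) (v y : V) (h : G.Reachable v y) :
    y = v ∨ G.Adj v y ∨ ∃ b, G.Adj v b ∧ G.Adj b y := by
  have key : ∀ x y : V, (x = v ∨ G.Adj v x ∨ ∃ b, G.Adj v b ∧ G.Adj b x) → G.Adj x y →
      (y = v ∨ G.Adj v y ∨ ∃ b, G.Adj v b ∧ G.Adj b y) := by
    intro x y hx hxy
    rcases hx with rfl | hx | ⟨b, hvb, hbx⟩
    · exact Or.inr (Or.inl hxy)
    · exact Or.inr (Or.inr ⟨x, hx, hxy⟩)
    · by_cases h1 : v = x
      · subst h1
        exact Or.inr (Or.inl hxy)
      · by_cases h2 : G.Adj v x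
        · exact Or.inr (Or.inr ⟨x, h2, hxy⟩)
        · exact Or.inr (no_dist_three G k t hG hkt v b x y hvb hbx hxy h2 h1)
  obtain ⟨w⟩ := h
  have gen : ∀ (a b : V) (p : G.Walk a b), (a = v ∨ G.Adj v a ∨ ∃ c, G.Adj v c ∧ G.Adj c a) →
      (b = v ∨ G.Adj v b ∨ ∃ c, G.Adj v c ∧ G.Adj c b) := by
    intro a b p
    induction p with
    | nil => exact fun h => h
    | cons hab _ ih => exact fun h => ih (key _ _ h hab)
  exact gen v y w (Or.inl rfl)

/-- Every connected `(k,t)`-regular graph with `2k < 3t+4` is finite. -/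
lemma finite_of_lt {V : Type u} (G : SimpleGraph V) (k t : ℕ) (hG : KTRegular G k t)
    (hkt : 2 * k < 3 * t + 4) (hconn : G.Connected) : Finite V := by
  obtain ⟨v⟩ := hconn.nonempty
  have hfin : ∀ z, (G.neighborSet z).Finite := fun z =>
    Set.finite_of_encard_eq_coe (hG z).1
  have hU : (Set.univ : Set V) ⊆ {v} ∪ G.neighborSet v ∪ ⋃ b ∈ G.neighborSet v, G.neighborSet b := by
    intro y _
    rcases dist_le_two G k t hG hkt v y (hconn.preconnected v y) with rfl | h | ⟨b, h1, h2⟩
    · exact Or.inl (Or.inl rfl)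
    · exact Or.inl (Or.inr h)
    · refine Or.inr ?_
      simp only [Set.mem_iUnion]
      exact ⟨b, h1, h2⟩
  have : (Set.univ : Set V).Finite := by
    refine Set.Finite.subset ?_ hU
    refine ((Set.finite_singleton v).union (hfin v)).union ?_
    exact (hfin v).biUnion (fun b _ => hfin b)
  exact Set.finite_univ_iff.mp this

/-! ### The second ingredient: symplectic graphs over the field with three elements -/

/-- Vectors of the symplectic space of dimension `2n` over `ZMod 3`. -/
abbrev Vec (n : ℕ) := Fin n → ZMod 3 × ZMod 3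

instance : Fact (Nat.Prime 3) := ⟨Nat.prime_three⟩

/-- The standard symplectic form. -/
def form {n : ℕ} (u v : Vec n) : ZMod 3 := ∑ i, ((u i).1 * (v i).2 - (u i).2 * (v i).1)

lemma form_add_right {n : ℕ} (u v w : Vec n) : form u (v + w) = form u v + form u w := by
  simp only [form, ← Finset.sum_add_distrib]
  refine Finset.sum_congr rfl fun i _ => ?_
  simp only [Pi.add_apply, Prod.fst_add, Prod.snd_add]
  ring

lemma form_smul_right {n : ℕ} (c : ZMod 3) (u v : Vec n) : form u (c • v) = c * form u v := by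
  simp only [form, Finset.mul_sum]
  refine Finset.sum_congr rfl fun i _ => ?_
  simp only [Pi.smul_apply, Prod.smul_fst, Prod.smul_snd, smul_eq_mul]
  ring

lemma form_swap {n : ℕ} (u v : Vec n) : form v u = - form u v := by
  simp only [form, ← Finset.sum_neg_distrib]
  refine Finset.sum_congr rfl fun i _ => ?_
  ring

lemma form_self {n : ℕ} (u : Vec n) : form u u = 0 := by
  simp only [form]
  refine Finset.sum_eq_zero fun i _ => ?_
  ring

lemma form_zero_right {n : ℕ} (u : Vec n) : form u 0 = 0 := by
  simp [form]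

/-- The functional `form u` as an additive homomorphism. -/
def formHom {n : ℕ} (u : Vec n) : Vec n →+ ZMod 3 where
  toFun := form u
  map_zero' := form_zero_right u
  map_add' := form_add_right u

lemma exists_form_eq {n : ℕ} (u : Vec n) (hu : u ≠ 0) (c : ZMod 3) : ∃ w, form u w = c := by
  obtain ⟨i, hi⟩ : ∃ i, u i ≠ 0 := by
    by_contra h
    push Not at h
    exact hu (funext h)
  have hcases : (u i).1 ≠ 0 ∨ (u i).2 ≠ 0 := by
    by_contra h
    push Not at h
    exact hi (Prod.ext h.1 h.2)
  rcases hcases with h | h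
  · refine ⟨Pi.single i (0, (u i).1⁻¹ * c), ?_⟩
    rw [form, Finset.sum_eq_single i]
    · simp only [Pi.single_eq_same, mul_zero, sub_zero]
      field_simp
    · intro j _ hj
      simp [Pi.single_eq_of_ne hj]
    · intro h; exact absurd (Finset.mem_univ i) h
  · refine ⟨Pi.single i (-((u i).2⁻¹ * c), 0), ?_⟩
    rw [form, Finset.sum_eq_single i]
    · simp only [Pi.single_eq_same, mul_zero, zero_sub]
      field_simp
    · intro j _ hj
      simp [Pi.single_eq_of_ne hj]
    · intro h; exact absurd (Finset.mem_univ i) h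

lemma card_preimage {A B : Type} [AddGroup A] [Fintype A] [AddGroup B] [Fintype B]
    [DecidableEq B] (f : A →+ B) (hf : Function.Surjective f) (P : B → Prop) [DecidablePred P] :
    (Finset.univ.filter (fun a => P (f a))).card * Fintype.card B =
      (Finset.univ.filter P).card * Fintype.card A := by
  classical
  set c := (Finset.univ.filter (fun a => f a = 0)).card with hc
  have hfib : ∀ b : B, (Finset.univ.filter (fun a => f a = b)).card = c := by
    intro b
    exact AddMonoidHom.card_fiber_eq_of_mem_range f (hf b) (hf 0)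
  have h1 : (Finset.univ.filter (fun a => P (f a))).card = (Finset.univ.filter P).card * c := by
    rw [Finset.card_eq_sum_card_fiberwise (f := f) (t := Finset.univ.filter P)]
    · rw [Finset.sum_congr rfl (g := fun _ => c)]
      · simp
      · intro b hb
        rw [← hfib b]
        congr 1
        ext a
        simp only [Finset.mem_filter, Finset.mem_univ, true_and] at hb ⊢
        constructor
        · exact fun h => h.2
        · intro h
          exact ⟨h ▸ hb, h⟩
    · intro a ha
      simpa using ha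
  have h2 : Fintype.card A = Fintype.card B * c := by
    rw [← Finset.card_univ, Finset.card_eq_sum_card_fiberwise (f := f) (t := Finset.univ)]
    · rw [Finset.sum_congr rfl (g := fun _ => c)]
      · simp
      · intro b _
        rw [← hfib b]
    · intro a _
      simp
  rw [h1, h2]
  ring

lemma card_vec (n : ℕ) : Fintype.card (Vec n) = 9 ^ n := by
  simp [Vec, Fintype.card_prod, ZMod.card]

lemma card_one {n : ℕ} (u : Vec n) (hu : u ≠ 0) :
    (Finset.univ.filter (fun w : Vec n => form u w ≠ 0)).card * 3 = 2 * 9 ^ n := by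
  have h := card_preimage (formHom u) (exists_form_eq u hu) (fun c : ZMod 3 => c ≠ 0)
  rw [card_vec, ZMod.card] at h
  have h2 : (Finset.univ.filter (fun c : ZMod 3 => c ≠ 0)).card = 2 := by decide
  rw [h2] at h
  exact h

lemma card_both {n : ℕ} (u v : Vec n) (huv : form u v ≠ 0) :
    (Finset.univ.filter (fun w : Vec n => form u w ≠ 0 ∧ form v w ≠ 0)).card * 9 = 4 * 9 ^ n := by
  have hsurj : Function.Surjective ((formHom u).prod (formHom v)) := by
    rintro ⟨a, b⟩
    refine ⟨(-((form u v)⁻¹ * b)) • u + ((form u v)⁻¹ * a) • v, ?_⟩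
    have h1 : form u ((-((form u v)⁻¹ * b)) • u + ((form u v)⁻¹ * a) • v) = a := by
      rw [form_add_right, form_smul_right, form_smul_right, form_self]
      field_simp
      ring
    have h2 : form v ((-((form u v)⁻¹ * b)) • u + ((form u v)⁻¹ * a) • v) = b := by
      rw [form_add_right, form_smul_right, form_smul_right, form_self, form_swap u v]
      field_simp
      ring
    exact Prod.ext h1 h2
  have h := card_preimage ((formHom u).prod (formHom v)) hsurj
    (fun c : ZMod 3 × ZMod 3 => c.1 ≠ 0 ∧ c.2 ≠ 0)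
  rw [card_vec, Fintype.card_prod, ZMod.card] at h
  have h2 : (Finset.univ.filter (fun c : ZMod 3 × ZMod 3 => c.1 ≠ 0 ∧ c.2 ≠ 0)).card = 4 := by
    decide
  rw [h2] at h
  exact h

/-- The symplectic graph: nonzero vectors (each taken `s` times), adjacent when not orthogonal. -/
def sympGraph (n s : ℕ) : SimpleGraph ({u : Vec n // u ≠ 0} × Fin s) where
  Adj p q := form p.1.1 q.1.1 ≠ 0
  symm := ⟨fun p q h => by
    rw [form_swap]
    exact neg_ne_zero.mpr h⟩
  loopless := ⟨fun p h => h (form_self _)⟩

lemma encard_aux (n s : ℕ) (P : Vec n → Prop) [DecidablePred P] (hP : ¬ P 0) :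
    {q : {u : Vec n // u ≠ 0} × Fin s | P q.1.1}.encard =
      (((Finset.univ.filter P).card * s : ℕ) : ℕ∞) := by
  have hinj : Function.Injective (fun q : {u : Vec n // u ≠ 0} × Fin s => (q.1.1, q.2)) := by
    rintro ⟨⟨a, ha⟩, b⟩ ⟨⟨c, hc⟩, d⟩ h
    simp only [Prod.mk.injEq] at h
    obtain ⟨rfl, rfl⟩ := h
    rfl
  rw [← hinj.encard_image]
  have himg : (fun q : {u : Vec n // u ≠ 0} × Fin s => (q.1.1, q.2)) ''
      {q : {u : Vec n // u ≠ 0} × Fin s | P q.1.1} =
      (((Finset.univ.filter P) ×ˢ (Finset.univ : Finset (Fin s)) : Finset (Vec n × Fin s)) :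
        Set (Vec n × Fin s)) := by
    ext ⟨a, b⟩
    simp only [Set.mem_image, Set.mem_ofPred_eq, Prod.mk.injEq, Prod.exists, Subtype.exists,
      Finset.coe_product, Finset.coe_filter, Finset.mem_univ, true_and, Finset.coe_univ,
      Set.mem_prod, Set.mem_univ, and_true]
    constructor
    · rintro ⟨c, hc, d, h1, rfl, rfl⟩
      exact h1
    · intro h
      refine ⟨a, ?_, b, h, rfl, rfl⟩
      rintro rfl
      exact hP h
  rw [himg, Set.encard_coe_eq_coe_finsetCard, Finset.card_product, Finset.card_univ,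
    Fintype.card_fin]

lemma sympGraph_regular (n s : ℕ) :
    KTRegular (sympGraph (n + 1) s) (6 * 9 ^ n * s) (4 * 9 ^ n * s) := by
  rw [ktRegular_iff]
  constructor
  · intro p
    have h := encard_aux (n + 1) s (fun w => form p.1.1 w ≠ 0) (by simp [form_zero_right])
    have h1 := card_one p.1.1 p.1.2
    have h2 : (Finset.univ.filter (fun w : Vec (n + 1) => form p.1.1 w ≠ 0)).card = 6 * 9 ^ n := by
      rw [pow_succ] at h1
      omega
    rw [h2] at h
    exact h
  · intro p q hpq
    have h := encard_aux (n + 1) s (fun w => form p.1.1 w ≠ 0 ∧ form q.1.1 w ≠ 0)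
      (by simp [form_zero_right])
    have h1 := card_both p.1.1 q.1.1 hpq
    have h2 : (Finset.univ.filter
        (fun w : Vec (n + 1) => form p.1.1 w ≠ 0 ∧ form q.1.1 w ≠ 0)).card = 4 * 9 ^ n := by
      rw [pow_succ] at h1
      omega
    rw [h2] at h
    exact h

lemma sympGraph_connected (n s : ℕ) (hs : 0 < s) : (sympGraph (n + 1) s).Connected := by
  have hne : (fun _ => (1, 1) : Vec (n + 1)) ≠ 0 := by
    intro h
    have := congrFun h 0
    simp at this
  have : Nonempty ({u : Vec (n + 1) // u ≠ 0} × Fin s) := ⟨(⟨_, hne⟩, ⟨0, hs⟩)⟩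
  rw [connected_iff]
  refine ⟨?_, this⟩
  intro p q
  obtain ⟨w1, hw1⟩ := exists_form_eq p.1.1 p.1.2 1
  obtain ⟨w2, hw2⟩ := exists_form_eq q.1.1 q.1.2 1
  have key : ∃ w, form p.1.1 w ≠ 0 ∧ form q.1.1 w ≠ 0 := by
    by_cases h1 : form q.1.1 w1 = 0
    · by_cases h2 : form p.1.1 w2 = 0
      · refine ⟨w1 + w2, ?_, ?_⟩
        · rw [form_add_right, hw1, h2]; simp
        · rw [form_add_right, hw2, h1]; simp
      · exact ⟨w2, h2, by rw [hw2]; simp⟩
    · exact ⟨w1, by rw [hw1]; simp, h1⟩
  obtain ⟨w, hpw, hqw⟩ := key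
  have hw0 : w ≠ 0 := by
    rintro rfl
    exact hpw (form_zero_right _)
  have ha : (sympGraph (n + 1) s).Adj p (⟨w, hw0⟩, ⟨0, hs⟩) := hpw
  have hb : (sympGraph (n + 1) s).Adj q (⟨w, hw0⟩, ⟨0, hs⟩) := hqw
  exact ha.reachable.trans hb.symm.reachable

lemma card_sympGraph (n s : ℕ) :
    Fintype.card ({u : Vec n // u ≠ 0} × Fin s) = (9 ^ n - 1) * s := by
  rw [Fintype.card_prod, Fintype.card_fin, Fintype.card_subtype_compl, card_vec,
    Fintype.card_subtype_eq]

/-- For every `N` there is a pair `(k,t)` such that there are at least `N` pairwise non-isomorphic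
connected `(k,t)`-regular graphs, while every connected `(k,t)`-regular graph is finite. -/
theorem result : ∀ N : ℕ, ∃ k t : ℕ, 1 ≤ k ∧
    (∃ (V : Fin N → Type) (G : ∀ i, SimpleGraph (V i)),
      (∀ i, (G i).Connected ∧ KTRegular (G i) k t) ∧
      ∀ i j, i ≠ j → IsEmpty (G i ≃g G j)) ∧
    ∀ (V : Type u) (G : SimpleGraph V), G.Connected → KTRegular G k t → Finite V := by
  intro N
  refine ⟨6 * 9 ^ N, 4 * 9 ^ N, ?_, ?_, ?_⟩
  · have : 0 < 9 ^ N := by positivity
    omega
  · refine ⟨fun i => {u : Vec (i.1 + 1) // u ≠ 0} × Fin (9 ^ (N - i.1)),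
      fun i => sympGraph (i.1 + 1) (9 ^ (N - i.1)), ?_, ?_⟩
    · intro i
      refine ⟨sympGraph_connected _ _ (by positivity), ?_⟩
      have h := sympGraph_regular i.1 (9 ^ (N - i.1))
      have h9 : 9 ^ i.1 * 9 ^ (N - i.1) = 9 ^ N := by
        rw [← pow_add]
        congr 1
        have := i.2
        omega
      rw [mul_assoc, mul_assoc, h9] at h
      exact h
    · intro i j hij
      refine ⟨fun e => hij ?_⟩
      have hcard := Fintype.card_congr e.toEquiv
      rw [card_sympGraph, card_sympGraph, Nat.sub_mul, Nat.sub_mul, ← pow_add, ← pow_add] at hcard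
      have hi := i.2
      have hj := j.2
      have e1 : i.1 + 1 + (N - i.1) = N + 1 := by omega
      have e2 : j.1 + 1 + (N - j.1) = N + 1 := by omega
      rw [e1, e2, one_mul, one_mul] at hcard
      have l1 : 9 ^ (N - i.1) ≤ 9 ^ (N + 1) := Nat.pow_le_pow_right (by norm_num) (by omega)
      have l2 : 9 ^ (N - j.1) ≤ 9 ^ (N + 1) := Nat.pow_le_pow_right (by norm_num) (by omega)
      have h3 : 9 ^ (N - i.1) = 9 ^ (N - j.1) := by omega
      have h4 : N - i.1 = N - j.1 := Nat.pow_right_injective (le_refl 2 |>.trans (by norm_num)) h3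
      exact Fin.ext (by omega)
  · intro V G hconn hG
    exact finite_of_lt G _ _ hG (by omega) hconn

end Pool.Agent.Results.MP_74392e_co.ManyFinite
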